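import Pool.Agent.P.MP_bed792_al.Q.Final

set_option autoImplicit false
set_option exponentiation.threshold 7000

namespace Pool.Agent.Results.MP_bed792_al.QuadraticUnipotent

open Pool.Agent.P.MP_bed792_al

theorem result : ∃ C : ℕ, ∀ (F : Type) [Field F] [Fintype F] (n : ℕ), 5 ≤ ringChar F → 13 ≤ n →
    ∀ I G : Subgroup (GL (Fin n) F), IsClassical I → ⁅I, I⁆ ≤ G → G ≤ I →
    (∀ g ∈ G, g.1.det = 1) →
    ∀ S : Set (GL (Fin n) F), Subgroup.closure S = G →
    (∃ g ∈ S, ∃ c : F, g.1 ≠ c • (1 : Matrix (Fin n) (Fin n) F) ∧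
      (g.1 - c • (1 : Matrix (Fin n) (Fin n) F)) ^ 2 = 0) →
    ∀ x ∈ G, ∃ l : List (GL (Fin n) F),
      l.length ≤ (n * Nat.log 2 (Fintype.card F)) ^ C ∧ (∀ y ∈ l, y ∈ S ∨ y⁻¹ ∈ S) ∧ l.prod = x := by
  refine ⟨6265, ?_⟩
  rintro F _ _ n h5 hn I _ hI h1 h2 hd S rfl ⟨g, hg, c, c1, c2⟩ x hx
  have hp := CharP.char_is_prime F (ringChar F)
  obtain ⟨k, hk, a, a1, a2, a3⟩ := Q.exists_pow hp (by omega) (hd g (Subgroup.subset_closure hg)) c1 c2
  let u : Subgroup.closure S := ⟨g, Subgroup.subset_closure hg⟩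
  have key := Q.final hp h5 hn hI h1 h2 hd (S := insert (u ^ k) (Subtype.val ⁻¹' S))
    (eq_top_iff.2 (Subgroup.closure_closure_coe_preimage.ge.trans
      (Subgroup.closure_mono (Set.subset_insert _ _)))) (Set.mem_insert _ _) a1 a2 a3 ⟨x, hx⟩
  have hL := (Q.ctx hp h5 (n := n) (by omega) (stdRep (Subgroup.closure S))
    Subgroup.closure_closure_coe_preimage).2
  obtain ⟨l, h3, h4, h5⟩ := Len.comp (S := (Subtype.val ⁻¹' S : Set (Subgroup.closure S))) (a := n) (by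
    rintro t (rfl | ht)
    · exact ((Len.of_mem (g := u) (Or.inl hg)).pow k).mono (by rwa [mul_one])
    · exact (Len.of_mem (Or.inl ht)).mono (by omega)) key
  refine ⟨l.map Subtype.val, ?_, fun z hz => ?_, ?_⟩
  · rw [List.length_map, pow_succ']
    exact h3.trans (Nat.mul_le_mul_right _ (Nat.le_mul_of_pos_right _ (by omega)))
  · obtain ⟨w, hw, rfl⟩ := List.mem_map.1 hz
    exact h4 w hw
  · rw [← SubmonoidClass.coe_list_prod, h5]

end Pool.Agent.Results.MP_bed792_al.QuadraticUnipotent
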