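import Pool.Agent.P.MP_bed792_al.Bridge

set_option autoImplicit false

namespace Pool.Agent.Results.MP_bed792_al.SmallSupport

open Pool.Agent.P.MP_bed792_al

theorem result : ∃ C : ℕ, ∀ (F : Type) [Field F] [Fintype F] (p e n k : ℕ), p.Prime →
    Fintype.card F = p ^ e → ∀ I G : Subgroup (GL (Fin n) F), IsClassical I → ⁅I, I⁆ ≤ G → G ≤ I →
    ∀ S : Set (GL (Fin n) F), Subgroup.closure S = G →
    (∃ g ∈ S, (∃ x ∈ G, x * g ≠ g * x) ∧
      ∃ c : F, (g.1 - c • (1 : Matrix (Fin n) (Fin n) F)).rank ≤ k) →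
    ∀ x ∈ G, ∃ l : List (GL (Fin n) F),
      l.length ≤ (2 * n * e) ^ (C * k ^ 2 * p * e) ∧ (∀ y ∈ l, y ∈ S ∨ y⁻¹ ∈ S) ∧ l.prod = x := by
  refine ⟨6 * 6 * 40 ^ 2 + 18, ?_⟩
  rintro F _ _ p e n k hp he I _ hI h1 h2 S rfl ⟨g, hg, ⟨y, hy, hc⟩, c, hk⟩ x hx
  have : Fact p.Prime := ⟨hp⟩
  have : CharP F p := charP_of_card_eq_prime_pow he
  rw [← Nat.card_eq_fintype_card] at he
  set g' : Subgroup.closure S := ⟨g, Subgroup.subset_closure hg⟩ with hg'
  have hk' := (rank_eq g' c).trans_le hk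
  have hc' : ∃ x, x * g' ≠ g' * x := ⟨⟨y, hy⟩, fun h => hc (congrArg Subtype.val h)⟩
  obtain ⟨hk1, hn⟩ := pos_of_noncentral (stdRep_inj _) hc' hk'
  have T := tools he (stdRep (Subgroup.closure S)) Subgroup.closure_closure_coe_preimage
    (M := 24 * k + 16) (by omega)
  rw [Module.finrank_fin_fun] at T hn
  have hb := final_bound (j := 6) (c := 260000) (b := 18) hn (exp_pos he) hp.one_le hk1
    (show 24 * k + 16 ≤ 40 * k by omega) (by norm_num)
  generalize ((n * e) ^ 2 + 2) ^ (p * (3 * e * (24 * k + 16) ^ 2)) = Λ at T hb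
  have hΛ := T.one_le
  have e1 : Λ ≤ Λ ^ 6 := Nat.le_self_pow (by omega) _
  have e2 : Λ ^ 5 ≤ Λ ^ 6 := Nat.pow_le_pow_right hΛ (by omega)
  obtain ⟨l, h3, h4, h5⟩ : Len (Subtype.val ⁻¹' S : Set (Subgroup.closure S)) (260000 * Λ ^ 6)
      ⟨x, hx⟩ := by
    by_cases h : n ≤ 24 * k + 16
    · exact (small_case T (stdRep_inj _) (by simpa using h) _).mono (by omega)
    rcases classical_cases hI with rfl | ⟨σ, ε, B, f, Γ, H, hI'⟩
    · exact ((hasT h1 (by omega)).main T (g := g') hg hc' hk' (by omega) _).mono (by omega)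
    · exact (geo H hI' h1 h2 (by omega)).main T (g := g') hg hc' hk' le_rfl _
  refine ⟨l.map Subtype.val, by simpa using h3.trans hb, fun z hz => ?_, ?_⟩
  · obtain ⟨w, hw, rfl⟩ := List.mem_map.1 hz
    exact h4 w hw
  · rw [← SubmonoidClass.coe_list_prod, h5]

end Pool.Agent.Results.MP_bed792_al.SmallSupport
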